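import Pool.Agent.Lib.MP_39c2b7_co.Interfaces

/-!
# Strong arboricity of planar graphs: module ASM (assembly of the certified patterns)
-/

set_option autoImplicit false

namespace StrongArb.H17

open StrongArb

theorem asm (hgeo : GeoStatement) (hmatch : MatchStatement) (hfb : FallbackStatement)
    (hwf : WFStatement) (hs : SoundStatement) : CertStatement := by
  intro certs hc V G C X hm hR
  have key : ∀ i, ∀ h : i < certs.length, Excluded G X (certs[i]).P.entries := by
    intro i
    induction i using Nat.strong_induction_on with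
    | _ i ih =>
      intro h
      rintro ⟨ψ, hψ⟩
      obtain ⟨hcert, hdom⟩ := hc i h
      unfold PatCert.certB at hcert
      rw [Bool.and_eq_true, Bool.and_eq_true, Bool.and_eq_true] at hcert
      obtain ⟨⟨⟨h1, h2⟩, h3⟩, h4⟩ := hcert
      have hWF := hwf _ _ h1
      have hlen := Nat.eq_of_beq_eq_true h3
      rw [List.all_eq_true] at h4
      refine hs V G hm _ ψ hWF hdom (hgeo V G C X hm hR _ _ _ ψ hWF h2 hψ ?_)
      intro q hq hX
      obtain ⟨j, hj, hjq⟩ := List.mem_iff_getElem.1 hq
      have hj' : j < (certs[i]).fb.length := by omega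
      have hmem : (q, (certs[i]).fb[j]) ∈ (certs[i]).exc.zip (certs[i]).fb := by
        rw [List.mem_iff_getElem]
        refine ⟨j, by rw [List.length_zip]; omega, ?_⟩
        rw [List.getElem_zip, hjq]
      have h5 := h4 _ hmem
      simp only [Bool.and_eq_true] at h5
      obtain ⟨⟨⟨⟨⟨k1, k2⟩, k3⟩, k4⟩, k5⟩, k6⟩ := h5
      have k2' := Nat.le_of_ble_eq_true k2
      have k3' := Nat.le_of_ble_eq_true k3
      have k5' : (certs[i]).fb[j].1 < i := Nat.le_of_ble_eq_true k5
      have hl : (certs[i]).fb[j].1 < certs.length := by omega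
      have hex := ih _ k5' hl
      have hent : Pat.entries ⟨(certs.map (fun c => c.P.links)).getD (certs[i]).fb[j].1 [], 0, []⟩
          = (certs[(certs[i]).fb[j].1]).P.entries := by
        have e1 : (certs.map (fun c => c.P.links)).getD (certs[i]).fb[j].1 []
            = (certs[(certs[i]).fb[j].1]).P.links := by
          rw [List.getD_eq_getElem _ _ (by rw [List.length_map]; exact hl), List.getElem_map]
        rw [e1]
        rfl
      rw [hent] at k6
      have hE := hmatch V G X _ _ _ k6 hex
      exact hfb V G C X hm hR _ _ _ _ ψ hWF k1 k2' k3' k4 hψ hE hX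
  intro c hcm
  obtain ⟨i, hi, rfl⟩ := List.mem_iff_getElem.1 hcm
  exact key i hi

end StrongArb.H17
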